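import Mathlib
import Pool.Agent.U131.SR.Stm
import Pool.Agent.K4H33.SK.ZetaK

/-!
# Project SR, package LD

Statement by helper131, proof by helper27.
-/

set_option autoImplicit false

namespace Pool.Agent.U27.SR
open NumberField Module IntermediateField Pool.Agent.K4H33.SK Pool.Agent.U131.SR
open Pool.Agent.K4H33.SK.Stmt (Sub)

section

variable {f : ℕ} [NeZero f] {ζ : Qbar} (hζ : IsPrimitiveRoot ζ f)

/-- every unit modulo `f` comes from an automorphism -/
lemma exists_aut (u : (ZMod f)ˣ) : ∃ s : GQ, hζ.autToPow ℚ s = u := by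
  have hf : 0 < f := Nat.pos_of_ne_zero (NeZero.ne f)
  have hc : (u : ZMod f).val.Coprime f := ZMod.val_coe_unit_coprime u
  have h1 : IsPrimitiveRoot (ζ ^ (u : ZMod f).val) f := hζ.pow_of_coprime _ hc
  have h2 : IsConjRoot ℚ (ζ ^ (u : ZMod f).val) ζ := by
    unfold IsConjRoot
    rw [← Polynomial.cyclotomic_eq_minpoly_rat hζ hf, ← Polynomial.cyclotomic_eq_minpoly_rat h1 hf]
  obtain ⟨s, hs⟩ := isConjRoot_iff_exists_algEquiv.1 h2
  exact ⟨s, aut_eq hζ (n := (u : ZMod f).val) (ZMod.natCast_zmod_val _) hs⟩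

/-- the quadratic character of a unit -/
lemma chiQ_pp {K L : Sub} (hKL : K ≤ L) (hL : L ≤ ℚ⟮ζ⟯) (u : (ZMod f)ˣ) :
    chiQ hζ K L (pp hζ L u) = 2 * ind (pp hζ K) 1 (u : ZMod f) - 1 := by
  classical
  obtain ⟨s, hs⟩ := exists_aut hζ u
  have hsL : qq hζ L s = pp hζ L u := by rw [qq_apply, hs]
  have hsK : qq hζ K s = pp hζ K u := by rw [qq_apply, hs]
  have hiff : (∃ g : GQ, Fixes K g ∧ qq hζ L g = pp hζ L u) ↔ pp hζ K u = 1 := by
    constructor
    · rintro ⟨g, hg, hg2⟩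
      rw [← hsL, qq_eq_iff hζ hL] at hg2
      rw [← hsK, ← map_one (qq hζ K), qq_eq_iff hζ (hKL.trans hL)]
      intro x hx
      rw [← hg2 x (hKL hx), hg x hx]
      rfl
    · intro h
      refine ⟨s, ?_, hsL⟩
      rw [← hsK, ← map_one (qq hζ K), qq_eq_iff hζ (hKL.trans hL)] at h
      exact h
  rw [ind_unit]
  unfold chiQ
  by_cases h : pp hζ K u = 1
  · rw [if_pos (hiff.2 h), if_pos h]
    norm_num
  · rw [if_neg (fun h2 => h (hiff.1 h2)), if_neg h]
    norm_num

lemma key {K L : Sub} (hKL : K ≤ L) (hL : L ≤ ℚ⟮ζ⟯) [Fintype (QQ hζ L)] (y : QQ hζ L) (d e : ℕ) :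
    ∑ x : QQ hζ L, chiQ hζ K L x * (ind (pp hζ L) x (d : ZMod f) *
      ind (pp hζ L) (y * x⁻¹) (e : ZMod f)) =
      ind (pp hζ L) y ((d * e : ℕ) : ZMod f) * (2 * ind (pp hζ K) 1 (d : ZMod f) - 1) := by
  classical
  by_cases hd : IsUnit (d : ZMod f)
  · obtain ⟨u, hu⟩ := hd
    by_cases he : IsUnit (e : ZMod f)
    · obtain ⟨v, hv⟩ := he
      rw [Finset.sum_eq_single (pp hζ L u)]
      · have h2 : ((d * e : ℕ) : ZMod f) = ((v * u : (ZMod f)ˣ) : ZMod f) := by
          rw [Nat.cast_mul, ← hu, ← hv, Units.val_mul, mul_comm]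
        rw [h2, ← hu, ← hv, ind_unit, ind_unit, ind_unit, if_pos rfl, one_mul, map_mul,
          chiQ_pp hζ hKL hL, ind_unit]
        simp only [← eq_mul_inv_iff_mul_eq]
        ring
      · intro x _ hx
        have h1 : ind (pp hζ L) x (d : ZMod f) = 0 := by
          rw [← hu, ind_unit, if_neg]
          intro h
          exact hx h.symm
        rw [h1, zero_mul, mul_zero]
      · intro h
        exact absurd (Finset.mem_univ _) h
    · rw [ind_not (pp hζ L) y (j := ((d * e : ℕ) : ZMod f)), zero_mul]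
      · refine Finset.sum_eq_zero fun x _ => ?_
        rw [ind_not _ _ he, mul_zero, mul_zero]
      · rw [Nat.cast_mul]
        intro h
        exact he (isUnit_of_mul_isUnit_right h)
  · rw [ind_not (pp hζ L) y (j := ((d * e : ℕ) : ZMod f)), zero_mul]
    · refine Finset.sum_eq_zero fun x _ => ?_
      rw [ind_not _ _ hd, zero_mul, mul_zero]
    · rw [Nat.cast_mul]
      intro h
      exact hd (isUnit_of_mul_isUnit_left h)

end

theorem t_LD (E1 : S_E1) : S_LD := by
  intro K L T _ f _ ζ hζ art _ hf hK hKL hL hLT hζT hart g hg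
  classical
  have hsup : K ⊔ L = L := sup_eq_right.2 hKL
  have hcoef : ∀ n : ℕ, (cnt K L (pri K f) art g n : ℂ) =
      ∑ x : QQ hζ L, ∑ i ∈ n.divisorsAntidiagonal, chiQ hζ K L x *
        (ind (pp hζ L) x (i.1 : ZMod f) * ind (pp hζ L) (qq hζ L g * x⁻¹) (i.2 : ZMod f)) := by
    intro n
    have h1 := cnt_sup hart hf hζ hζT le_rfl hL K g n
    rw [hsup] at h1
    rw [h1, Finset.sum_comm]
    have h2 : ∑ i ∈ n.divisorsAntidiagonal, ∑ x : QQ hζ L, chiQ hζ K L x *
        (ind (pp hζ L) x (i.1 : ZMod f) * ind (pp hζ L) (qq hζ L g * x⁻¹) (i.2 : ZMod f)) =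
        ∑ i ∈ n.divisorsAntidiagonal, ind (pp hζ L) (qq hζ L g) (n : ZMod f) *
          (2 * ind (pp hζ K) 1 (i.1 : ZMod f) - 1) := by
      refine Finset.sum_congr rfl fun i hi => ?_
      rw [Nat.mem_divisorsAntidiagonal] at hi
      rw [key hζ hKL hL, hi.1]
    rw [h2, ← Finset.mul_sum]
    by_cases hn : n.Coprime f
    · rw [cnt_base hart hg hn]
      have h3 := E1 K f ζ hζ hf hK (hKL.trans hL) n hn
      rw [h3, Nat.sum_divisorsAntidiagonal (f := fun d _ =>
        (2 * ind (pp hζ K) 1 ((d : ℕ) : ZMod f) - 1 : ℂ))]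
    · rw [ind_not, zero_mul, zero_mul]
      rwa [ZMod.isUnit_iff_coprime]
  constructor
  · refine DifferentiableOn.fun_sum fun x _ => ?_
    refine (differentiableOn_const _).mul ?_
    exact DifferentiableOn.mul (fun s hs => (zq_diff _ _ hs).differentiableWithinAt)
      (fun s hs => (zq_diff _ _ hs).differentiableWithinAt)
  · intro s hs
    have h3 : ∀ x ∈ (Finset.univ : Finset (QQ hζ L)), LSeriesHasSum (chiQ hζ K L x •
        LSeries.convolution (fun n : ℕ => ind (pp hζ L) x (n : ZMod f))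
          (fun n : ℕ => ind (pp hζ L) (qq hζ L g * x⁻¹) (n : ZMod f))) s
        (chiQ hζ K L x * (zq (pp hζ L) x s * zq (pp hζ L) (qq hζ L g * x⁻¹) s)) :=
      fun x _ => ((zq_hasSum _ _ hs).convolution (zq_hasSum _ _ hs)).smul _
    have h4 := LSeriesHasSum.sum h3
    refine (LSeriesHasSum_congr s _ (fun {n} _ => ?_)).1 h4
    rw [hcoef n, Finset.sum_apply]
    refine Finset.sum_congr rfl fun x _ => ?_
    rw [Pi.smul_apply, LSeries.convolution_def, smul_eq_mul, Finset.mul_sum]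

end Pool.Agent.U27.SR
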